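import Mathlib
import Pool.Agent.U307.LR.G
import Pool.Agent.Results.MP_d0d59f_nt.SparseUniformInD

set_option autoImplicit false

/-!
# The `3x+d` maps near the terms of linear recurrences, uniformly in `d`

A sequence of integers is called smooth if, for some step `M`, its `k`-th differences with step `M` are
divisible by `4 ^ k`, for all `k`. The smooth sequences form a ring, which contains every linear
recurrence with odd last coefficient (like the Fibonacci numbers, all polynomials, all `b ^ n` with `b` odd)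
and every Newton series `∑ c_j n (n - 1) ... (n - j + 1)`. A smooth sequence is spread modulo powers of two
if and only if it is constant on no arithmetic progression. Hence, uniformly in `d`, the trajectories of
the `3x+d` map which pass near `3 ^ i x`, `x` a term of such a sequence, merge at once.
-/

namespace Pool.Agent.Results.MP_d0d59f_nt.LinearRecurrences

open Filter Topology

/-- the `3x+d` map on the integers -/
def T (d x : ℤ) : ℤ := if x % 2 = 0 then x / 2 else (3 * x + d) / 2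

/-- The sequence `x` is spread modulo powers of two: there is `δ > 0` such that for every `ε > 0` there
are `η > 0` and `N₀` such that, for `N ≥ N₀` and `2 ^ t ≤ N ^ δ`, at most `η 2 ^ t` classes modulo `2 ^ t`
contain together at most `ε N` of the integers `x n`, `1 ≤ n ≤ N`. -/
def Spread (x : ℕ → ℤ) : Prop :=
  ∃ δ : ℝ, 0 < δ ∧ ∀ ε : ℝ, 0 < ε → ∃ η : ℝ, 0 < η ∧ ∃ N₀ : ℕ, ∀ N : ℕ, N₀ ≤ N →
    ∀ t : ℕ, (2 : ℝ) ^ t ≤ (N : ℝ) ^ δ → ∀ A : Finset ℤ, (A.card : ℝ) ≤ η * 2 ^ t →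
      (({n | 1 ≤ n ∧ n ≤ N ∧ ∃ a ∈ A, x n ≡ a [ZMOD 2 ^ t]} : Set ℕ).ncard : ℝ) ≤ ε * N

/-- The range: `W n = √ log n / (log log n) ^ 17`. -/
noncomputable def W (n : ℕ) : ℝ := √ (Real.log n) / (Real.log (Real.log n)) ^ 17

/-- The linear recurrence `u (n + d) = c 0 u (n) + ... + c (d - 1) u (n + d - 1)` with `c 0` odd. -/
def OddRec (u : ℕ → ℤ) : Prop :=
  ∃ (d : ℕ) (c : ℕ → ℤ), 1 ≤ d ∧ Odd (c 0) ∧ ∀ n, u (n + d) = ∑ i ∈ Finset.range d, c i * u (n + i)

/-- `u` is smooth: for some step `M ≥ 1`, `4 ^ k` divides all the `k`-th differences of `u` with step `M`,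
for every `k`. -/
def Smooth (u : ℕ → ℤ) : Prop :=
  ∃ M : ℕ, 1 ≤ M ∧ ∀ k n : ℕ,
    (4 : ℤ) ^ k ∣ ∑ j ∈ Finset.range (k + 1), (-1) ^ (k - j) * (k.choose j : ℤ) * u (n + j * M)

/-- `u` is constant on no arithmetic progression. -/
def NoConst (u : ℕ → ℤ) : Prop := ∀ a q : ℕ, 1 ≤ q → ∃ m, u (a + q * m) ≠ u a

/-- If a trajectory of the `3x+d` map passes at time `k` through `3 ^ i x + d r` with `i ≤ W n` and
`|r| ≤ exp (W n)`, then at time `k + s` it is at the point where the trajectory of `x` is at time `s`. -/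
def Merged (d x : ℤ) (n s : ℕ) : Prop :=
  ∀ (z : ℤ) (k i : ℕ) (r : ℤ), (i : ℝ) ≤ W n → |(r : ℝ)| ≤ Real.exp (W n) →
    (T d)^[k] z = 3 ^ i * x + d * r → (T d)^[k + s] z = (T d)^[s] x

open Pool.Agent.Results.MP_d0d59f_nt.SparseUniformInD in
theorem sp_iff (x : ℕ → ℤ) : Spread x ↔ Pool.Agent.Y967.CM.Spread x := spread_iff x

/-- (1) Every linear recurrence with odd last coefficient is smooth, and so is every Newton series
`∑ c_j n (n - 1) ... (n - j + 1)` with integers `c_j`; sums and products of smooth sequences are smooth.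
(2) A smooth sequence `u` is spread if and only if it is constant on no arithmetic progression, and then
`u (e n)` is spread for every spread sequence `e` of natural numbers.
Let the sequence of integers `x` be smooth and constant on no arithmetic progression, and let the
sequence of natural numbers `e` be spread, for example that of the primes.
(3) For all `κ, ε > 0` there is `N₀` such that, for all `N ≥ N₀` and all odd `d`, the following holds for
all but `ε N` of the `n ≤ N`: if a trajectory of the `3x+d` map passes at time `k` through a point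
`3 ^ i x (e n) + d r` with `i ≤ W n` and `|r| ≤ exp (W n)`, then at time `k + ⌊κ log n⌋` it is at the point
where the trajectory of `x (e n)` is at time `⌊κ log n⌋`; so every set of integers invariant under the
`3x+d` map and its inverse contains both or none of the two starting points.
(4) There is `c > 0` such that for every `ε > 0` there are `K` and `N₀` such that, for all `N ≥ N₀` and
all odd `d` with `|d| ≤ N ^ c`: for every `i ≥ K √ log N` the trajectories of `3 ^ i x (e n)` and `x (e n)`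
are at different points at all times `t ≤ c log N`, for all but `ε N` of the `n ≤ N`; and for all but
`ε N` of the `n ≤ N` there is `r ≤ exp (K √ log N)` such that the trajectories of `x (e n) + d r` and
`x (e n)` are at different points at all times `t ≤ c log N`.
(5) Let `x` be natural-valued and `a ≠ 0`. For all `κ, ε > 0` there is `N₀` such that, for all `N ≥ N₀` and
all odd `d`, for all but `ε N` of the `n ≤ N`, with `m = x (e n)`, for all `j ≤ W n`: the trajectories of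
`2 ^ (m + j) a - d` at time `m + j + ⌊κ log n⌋`, of `2 ^ m a - d` at time `m + ⌊κ log n⌋` and of `3 ^ m a`
and `3 ^ (m + j) a` at time `⌊κ log n⌋` are at the same point.
(6) The Fibonacci numbers are smooth and constant on no arithmetic progression. -/
theorem result :
    ((∀ u : ℕ → ℤ, OddRec u → Smooth u) ∧
      (∀ c : ℕ → ℤ, Smooth (fun n => ∑ j ∈ Finset.range (n + 1), c j * (n.descFactorial j : ℤ))) ∧
      (∀ u v : ℕ → ℤ, Smooth u → Smooth v → Smooth (fun n => u n + v n) ∧ Smooth (fun n => u n * v n))) ∧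
    (∀ u : ℕ → ℤ, Smooth u → (Spread u ↔ NoConst u) ∧
      ∀ e : ℕ → ℕ, NoConst u → Spread (fun n => (e n : ℤ)) → Spread (fun n => u (e n))) ∧
    (∀ (x : ℕ → ℤ) (e : ℕ → ℕ), Smooth x → NoConst x → Spread (fun n => (e n : ℤ)) →
      (∀ κ ε : ℝ, 0 < κ → 0 < ε → ∃ N₀ : ℕ, ∀ N : ℕ, N₀ ≤ N → ∀ d : ℤ, Odd d →
        (({n | 1 ≤ n ∧ n ≤ N ∧ ¬ (Merged d (x (e n)) n ⌊κ * Real.log n⌋₊ ∧
          ∀ S : Set ℤ, (∀ y, y ∈ S ↔ T d y ∈ S) → ∀ (z : ℤ) (k i : ℕ) (r : ℤ), (i : ℝ) ≤ W n →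
            |(r : ℝ)| ≤ Real.exp (W n) → (T d)^[k] z = 3 ^ i * x (e n) + d * r →
            (z ∈ S ↔ x (e n) ∈ S))} : Set ℕ).ncard : ℝ) ≤ ε * N) ∧
      (∃ c : ℝ, 0 < c ∧ ∀ ε : ℝ, 0 < ε → ∃ K : ℝ, 0 < K ∧ ∃ N₀ : ℕ,
        ∀ N : ℕ, N₀ ≤ N → ∀ d : ℤ, Odd d → |(d : ℝ)| ≤ (N : ℝ) ^ c →
        (∀ i : ℕ, K * √ (Real.log N) ≤ i →
          (({n | 1 ≤ n ∧ n ≤ N ∧ ∃ t : ℕ, (t : ℝ) ≤ c * Real.log N ∧
            (T d)^[t] (3 ^ i * x (e n)) = (T d)^[t] (x (e n))} : Set ℕ).ncard : ℝ) ≤ ε * N) ∧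
        (({n | 1 ≤ n ∧ n ≤ N ∧ ¬ ∃ r : ℕ, (r : ℝ) ≤ Real.exp (K * √ (Real.log N)) ∧
            ∀ t : ℕ, (t : ℝ) ≤ c * Real.log N → (T d)^[t] (x (e n) + d * r) ≠ (T d)^[t] (x (e n))}
          : Set ℕ).ncard : ℝ) ≤ ε * N)) ∧
    (∀ (x e : ℕ → ℕ), Smooth (fun n => (x n : ℤ)) → NoConst (fun n => (x n : ℤ)) →
      Spread (fun n => (e n : ℤ)) → ∀ a : ℤ, a ≠ 0 → ∀ κ ε : ℝ, 0 < κ → 0 < ε →
      ∃ N₀ : ℕ, ∀ N : ℕ, N₀ ≤ N → ∀ d : ℤ, Odd d →
        (({n | 1 ≤ n ∧ n ≤ N ∧ ¬ ∀ m j : ℕ, m = x (e n) → (j : ℝ) ≤ W n →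
          (T d)^[m + j + ⌊κ * Real.log n⌋₊] (2 ^ (m + j) * a - d) = (T d)^[⌊κ * Real.log n⌋₊] (3 ^ m * a) ∧
          (T d)^[m + ⌊κ * Real.log n⌋₊] (2 ^ m * a - d) = (T d)^[⌊κ * Real.log n⌋₊] (3 ^ m * a) ∧
          (T d)^[⌊κ * Real.log n⌋₊] (3 ^ (m + j) * a) = (T d)^[⌊κ * Real.log n⌋₊] (3 ^ m * a)}
        : Set ℕ).ncard : ℝ) ≤ ε * N) ∧
    (Smooth (fun n => (Nat.fib n : ℤ)) ∧ NoConst (fun n => (Nat.fib n : ℤ)) ∧
      Spread (fun n => (n : ℤ)) ∧ Spread (fun n => ((Nat.nth Nat.Prime n : ℕ) : ℤ))) := by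
  obtain ⟨⟨hid, hpr, -, -⟩, hH1, hH2, hH3⟩ := Pool.Agent.Results.MP_d0d59f_nt.SparseUniformInD.result
  have hcomp : ∀ u : ℕ → ℤ, Smooth u → ∀ e : ℕ → ℕ, NoConst u → Spread (fun n => (e n : ℤ)) →
      Spread (fun n => u (e n)) := fun u hu e hne he =>
    (sp_iff _).2 (Pool.Agent.U307.LR.Smooth.comp hu hne ((sp_iff _).1 he))
  refine ⟨⟨fun u hu => Pool.Agent.U307.LR.OddRec.smooth hu, fun c => Pool.Agent.U307.LR.newton_smooth c,
    fun u v hu hv => ⟨Pool.Agent.U307.LR.Smooth.add hu hv, Pool.Agent.U307.LR.Smooth.mul hu hv⟩⟩,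
    fun u hu => ⟨(sp_iff u).trans (Pool.Agent.U307.LR.Smooth.spread_iff hu), fun e hne he => hcomp u hu e hne he⟩,
    fun x e hx hne he => ⟨?_, ?_⟩, fun x e hx hne he => hH3 (fun n => x (e n)) (hcomp _ hx e hne he), Pool.Agent.U307.LR.fib_odd.smooth, Pool.Agent.U307.LR.fib_noConst, hid, hpr⟩
  · exact hH1 (fun n => x (e n)) (hcomp x hx e hne he)
  · exact hH2 (fun n => x (e n)) (hcomp x hx e hne he)

end Pool.Agent.Results.MP_d0d59f_nt.LinearRecurrences
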