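import Pool.Agent.U457.PS.Tup

/-!
# The `3x+d` maps: orbits merge at low values only, with a power saving

Let `d` be odd and prime to `3`, `T` the `3x+d` map on the integers, and call the entrance of `x` below `Y`
the first value of absolute value smaller than `Y` of the orbit of `x`.

(1) The entrances below `Y` are spread out: a set `E` of integers contains the entrance of at most
`C X (#E Y ^ (ε - 1) + Y ^ (-0.06))` of the integers `|x| ≤ X`, for all `1 ≤ Y ≤ X` and all `E`.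
(2) A set `A` with `T A ⊆ A` is met above `Y` (before the orbit takes a value smaller than `Y`) by the orbits of
at most `C X (#(A ∩ (-Y, Y)) Y ^ (ε - 1) + Y ^ (-0.06))` of the integers `|x| ≤ X`.
(3) EVERY orbit is met above `Y` by the orbits of at most `C X Y ^ (-0.06)` of the integers `|x| ≤ X`, with the
same `C` for all orbits; and so is the union of all cycles.
(4) At most `(C X Y ^ (-0.06)) ^ r` of the `r`-tuples of integers of absolute value at most `X` merge above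
`Y`, for all `r ≥ 2`, with the same `C` for all `r`: the chance is not larger than if each of the `r` orbits
had to be exceptional independently of the others.
-/

set_option autoImplicit false

namespace Pool.Agent.Results.MP_d0d59f_nt.MergersAreLow

open Pool.Agent.U457.PS

/-- the `3x+d` map on the integers -/
def T (d x : ℤ) : ℤ := if x % 2 = 0 then x / 2 else (3 * x + d) / 2

/-- The orbit of `x` takes a value of absolute value smaller than `Y`, and the first such value is in `E`. -/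
def EntersIn (d : ℤ) (Y : ℝ) (E : Set ℤ) (x : ℤ) : Prop :=
  ∃ n : ℕ, (∀ j < n, Y ≤ |(((T d)^[j] x : ℤ) : ℝ)|) ∧ |(((T d)^[n] x : ℤ) : ℝ)| < Y ∧ (T d)^[n] x ∈ E

/-- The orbit of `x` meets `A` before it takes a value of absolute value smaller than `Y`. -/
def MeetsAbove (d : ℤ) (Y : ℝ) (A : Set ℤ) (x : ℤ) : Prop :=
  ∃ n : ℕ, (T d)^[n] x ∈ A ∧ ∀ j ≤ n, Y ≤ |(((T d)^[j] x : ℤ) : ℝ)|

/-- The orbits of the integers `x i` have an element `z` in common which each of them reaches before it takes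
a value of absolute value smaller than `Y`. -/
def MergeAbove (d : ℤ) (Y : ℝ) {r : ℕ} (x : Fin r → ℤ) : Prop :=
  ∃ z : ℤ, ∀ i, ∃ n : ℕ, (T d)^[n] (x i) = z ∧ ∀ j ≤ n, Y ≤ |(((T d)^[j] (x i) : ℤ) : ℝ)|

/-- the number of the integers `x` with `|x| ≤ X` and the property `P` -/
noncomputable def count (X : ℝ) (P : ℤ → Prop) : ℝ := ({x : ℤ | |(x : ℝ)| ≤ X ∧ P x}.ncard : ℝ)

/-- the orbit of `b` -/
def orbit (d b : ℤ) : Set ℤ := {z : ℤ | ∃ i : ℕ, (T d)^[i] b = z}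

/-- the set of the elements of all cycles -/
def cycles (d : ℤ) : Set ℤ := {z : ℤ | ∃ p : ℕ, 1 ≤ p ∧ (T d)^[p] z = z}

theorem finE {A : Set ℤ} {Y : ℝ} : {y : ℤ | y ∈ A ∧ |(y : ℝ)| < Y}.Finite :=
  (fin_abs Y (fun y => y ∈ A)).subset fun _ hy => ⟨hy.2.le, hy.1⟩

theorem result (d : ℤ) (hd : d % 2 = 1) (h3 : ¬ (3 : ℤ) ∣ d) :
    (∀ ε : ℝ, 0 < ε → ∃ C : ℝ, ∀ X Y : ℝ, 1 ≤ Y → Y ≤ X → ∀ E : Finset ℤ,
      count X (EntersIn d Y E) ≤ C * X * ((E.card : ℝ) * Y ^ (ε - 1) + Y ^ (-(6 / 100) : ℝ))) ∧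
    (∀ ε : ℝ, 0 < ε → ∃ C : ℝ, ∀ X Y : ℝ, 1 ≤ Y → 1 ≤ X → ∀ A : Set ℤ, (∀ x ∈ A, T d x ∈ A) →
      count X (MeetsAbove d Y A) ≤
        C * X * (({y : ℤ | y ∈ A ∧ |(y : ℝ)| < Y}.ncard : ℝ) * Y ^ (ε - 1) + Y ^ (-(6 / 100) : ℝ))) ∧
    (∃ C : ℝ, ∀ X Y : ℝ, 1 ≤ Y → 1 ≤ X →
      (∀ b : ℤ, count X (MeetsAbove d Y (orbit d b)) ≤ C * X * Y ^ (-(6 / 100) : ℝ)) ∧
      count X (MeetsAbove d Y (cycles d)) ≤ C * X * Y ^ (-(6 / 100) : ℝ)) ∧
    (∃ C : ℝ, ∀ X Y : ℝ, 1 ≤ Y → 1 ≤ X → ∀ r : ℕ, 2 ≤ r →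
      ({x : Fin r → ℤ | (∀ i, |(x i : ℝ)| ≤ X) ∧ MergeAbove d Y x}.ncard : ℝ) ≤
        (C * X * Y ^ (-(6 / 100) : ℝ)) ^ r) := by
  classical
  have hk : Odd d := Int.odd_iff.2 hd
  have hk3 : IsCoprime d 3 := by
    rw [isCoprime_comm]
    exact (Prime.coprime_iff_not_dvd Int.prime_three).2 h3
  refine ⟨fun ε hε => ?_, fun ε hε => ?_, ?_, ?_⟩
  · obtain ⟨C, hC, h⟩ := spread_all hk hk3 hε
    refine ⟨C + 1, fun X Y hY hYX E => ?_⟩
    have hY0 : 0 < Y := by linarith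
    have hX0 : 0 < X := by linarith
    have hYc : 0 < Y ^ (-(6 / 100) : ℝ) := Real.rpow_pos_of_pos hY0 _
    have h1 := h Y hY (E : Set ℤ) E (fun y hy _ => hy) X (by linarith)
    have hsub : {x : ℤ | |(x : ℝ)| ≤ X ∧ EntersIn d Y E x} ⊆
        {x : ℤ | |(x : ℝ)| ≤ X ∧ x ∈ SZk d Y (E : Set ℤ)} ∪ (E : Set ℤ) := by
      rintro x ⟨hx, n, h2, h3, h4⟩
      rcases lt_or_ge |(x : ℝ)| Y with hc | hc
      · right
        rcases Nat.eq_zero_or_pos n with rfl | hn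
        · exact h4
        · exact absurd hc (not_lt.2 (h2 0 hn))
      · left
        refine ⟨hx, ?_⟩
        rw [mem_SZk]
        exact ⟨hc, n, h2, h3, h4⟩
    have h2 := (Set.ncard_le_ncard hsub ((fin_abs X _).union E.finite_toSet)).trans
      (Set.ncard_union_le _ _)
    rw [Set.ncard_coe_finset] at h2
    have h3 : count X (EntersIn d Y E) ≤
        ({x : ℤ | |(x : ℝ)| ≤ X ∧ x ∈ SZk d Y (E : Set ℤ)}.ncard : ℝ) + E.card := by
      unfold count
      exact_mod_cast h2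
    have h4 : (E.card : ℝ) ≤ X * (E.card * Y ^ (ε - 1)) := by
      have h5 : Y ^ (-1 : ℝ) ≤ Y ^ (ε - 1) := Real.rpow_le_rpow_of_exponent_le hY (by linarith)
      have h6 : 1 ≤ X * Y ^ (ε - 1) := by
        calc (1 : ℝ) = Y * Y ^ (-1 : ℝ) := by
              rw [Real.rpow_neg_one, mul_inv_cancel₀ hY0.ne']
          _ ≤ X * Y ^ (ε - 1) := mul_le_mul hYX h5 (Real.rpow_nonneg hY0.le _) hX0.le
      calc (E.card : ℝ) = E.card * 1 := (mul_one _).symm
        _ ≤ E.card * (X * Y ^ (ε - 1)) := mul_le_mul_of_nonneg_left h6 (Nat.cast_nonneg _)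
        _ = _ := by ring
    have h5 : 0 ≤ X * Y ^ (-(6 / 100) : ℝ) := by positivity
    calc count X (EntersIn d Y E) ≤ C * X * ((E.card : ℝ) * Y ^ (ε - 1) + Y ^ (-(6 / 100) : ℝ)) +
          (X * (E.card * Y ^ (ε - 1)) + X * Y ^ (-(6 / 100) : ℝ)) := by
            refine h3.trans ?_
            linarith
      _ = _ := by ring
  · obtain ⟨C, hC, h⟩ := meet_fwd hk hk3 hε
    refine ⟨C, fun X Y hY hX A hA => ?_⟩
    have h1 := h Y hY A (finE (A := A) (Y := Y)).toFinset hA (by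
      intro y hy hyY
      rw [Set.Finite.mem_toFinset]
      exact ⟨hy, hyY⟩) X hX
    rwa [← Set.ncard_eq_toFinset_card _ (finE (A := A) (Y := Y))] at h1
  · obtain ⟨C₁, hC₁, h1⟩ := meet_orbit hk hk3
    obtain ⟨C₂, hC₂, h2⟩ := meet_periodic hk hk3
    refine ⟨C₁ + C₂, fun X Y hY hX => ⟨fun b => ?_, ?_⟩⟩
    · have h3 : 0 ≤ C₂ * X * Y ^ (-(6 / 100) : ℝ) := by
        have := Real.rpow_nonneg (show (0 : ℝ) ≤ Y by linarith) (-(6 / 100) : ℝ)
        have : 0 ≤ X := by linarith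
        positivity
      have h4 := h1 b Y hY X hX
      calc count X (MeetsAbove d Y (orbit d b)) ≤ C₁ * X * Y ^ (-(6 / 100) : ℝ) := h4
        _ ≤ C₁ * X * Y ^ (-(6 / 100) : ℝ) + C₂ * X * Y ^ (-(6 / 100) : ℝ) := by linarith
        _ = _ := by ring
    · have h3 : 0 ≤ C₁ * X * Y ^ (-(6 / 100) : ℝ) := by
        have := Real.rpow_nonneg (show (0 : ℝ) ≤ Y by linarith) (-(6 / 100) : ℝ)
        have : 0 ≤ X := by linarith
        positivity
      have h4 := h2 Y hY X hX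
      calc count X (MeetsAbove d Y (cycles d)) ≤ C₂ * X * Y ^ (-(6 / 100) : ℝ) := h4
        _ ≤ C₁ * X * Y ^ (-(6 / 100) : ℝ) + C₂ * X * Y ^ (-(6 / 100) : ℝ) := by linarith
        _ = _ := by ring
  · obtain ⟨C, hC, h⟩ := tuples hk hk3
    exact ⟨C, fun X Y hY hX r hr => h r hr Y hY X hX⟩

end Pool.Agent.Results.MP_d0d59f_nt.MergersAreLow
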