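import Mathlib
import Pool.Agent.U364.PD.TD

/-!
# The orbits of the `3x+d` maps whose parities a pushdown machine predicts with few errors

A deterministic pushdown machine (with any number of silent moves) reads the parities of the orbit of `x` under `T_d` one
by one and predicts the next one. For every machine there is ONE `c > 0` and ONE `C` such that, for all odd `d`, the finite
set `F_d = {y : |y| ≤ C |d|}` meets all orbits for which the machine makes at most `c log N` errors on the first `N`
parities, for arbitrarily large `N`. The question asks for a finite set which meets all orbits. The quantitative form says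
after how many steps the orbit has entered a cycle, of bounded length, if there were `E` errors so far.

Parity words composed of few words of linear complexity are treated by the starting file `FewPiecesSmallCycle`; the parity
words which a pushdown machine predicts with few errors are not of this kind (such a machine can predict the second half
of each palindrome, for instance). Proof: on a stretch without errors the machine is an autonomous pushdown system, so
that the parities are periodic, with a bounded period, after a number of parities which is at most linear in the position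
of the stretch (`Pool.Agent.U364.PD.stretchP`); and equal parities for `k` steps give a congruence modulo `2 ^ k`.
-/

set_option autoImplicit false

namespace Pool.Agent.Results.MP_d0d59f_nt.PushdownPredictable

open Pool.Agent.U364.PD Pool.Agent.U364.PD.TD

/-- the parities of the orbit of `x`: the `n`-th one is the parity of `T_d^(n-1) x`, `n ≥ 1` -/
def parities (d x : ℤ) (n : ℕ) : ℤ := (T d)^[n - 1] x % 2

/-- the orbit of `x` arrives after `i` steps at an element of a cycle with at most `P` elements, of absolute value at most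
`4 ^ P |d|` -/
def Arrives (d x : ℤ) (P i : ℕ) : Prop :=
  (∃ p : ℕ, 1 ≤ p ∧ p ≤ P ∧ (T d)^[p] ((T d)^[i] x) = (T d)^[i] x) ∧ |(T d)^[i] x| ≤ 4 ^ P * |d|

theorem general {Q Γ : Type} [Finite Q] [Finite Γ] (M : Machine Q Γ) :
    ∃ (K : ℝ) (P : ℕ), 1 ≤ K ∧ ∀ d : ℤ, d % 2 = 1 → ∀ (x : ℤ) (L : ℕ), |x| + |d| ≤ 2 ^ L →
      ∀ (q₀ : Q) (s₀ : List Γ) (N : ℕ),
      K ^ (errors M (parities d x) q₀ s₀ N + 1) * (s₀.length + L + 1) < N →
      ∃ i ≤ N, Arrives d x P i := by
  classical
  obtain ⟨C, P, hCP⟩ := stretchP M 2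
  refine ⟨2 * C + 2 + 2, P, by have : (0 : ℝ) ≤ C := Nat.cast_nonneg C; linarith, ?_⟩
  intro d hd x L hL q₀ s₀ N hN
  by_contra hno
  push Not at hno
  have hd' : ∀ n, 0 ≤ parities d x n ∧ parities d x n < (2 : ℕ) := fun n => by
    unfold parities
    push_cast
    omega
  have hgap : ∀ u v : ℕ, (∀ i, u ≤ i → i < v → (Predicts M (parities d x) q₀ s₀ i ∧ i < N)) →
      (v : ℝ) ≤ (2 * C + 2) * (u + (s₀.length + L : ℝ) + 1) := by
    intro u v hp
    have h4 : (0 : ℝ) ≤ C := Nat.cast_nonneg C
    have h5 : (0 : ℝ) ≤ L := Nat.cast_nonneg L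
    have h6 : (0 : ℝ) ≤ s₀.length := Nat.cast_nonneg _
    have h7 : (0 : ℝ) ≤ u := Nat.cast_nonneg u
    have h8 := mul_nonneg h4 h5
    have h9 := mul_nonneg h4 h6
    have h10 := mul_nonneg h4 h7
    obtain ⟨a, p, hp1, hpP, hap, hper⟩ := hCP (parities d x) hd' q₀ s₀ u v
      (fun i h1 h2 => (hp i h1 h2).1)
    rcases le_or_gt v (u + a + p) with hv | hv
    · have h1 : v ≤ u + C * (u + s₀.length + 1) := by omega
      have h2 : (v : ℝ) ≤ u + C * (u + s₀.length + 1) := by exact_mod_cast h1
      nlinarith
    have hvN : v ≤ N := by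
      have := (hp (v - 1) (by omega) (by omega)).2
      omega
    have hne : (T d)^[u + a + p] x ≠ (T d)^[u + a] x := by
      intro heq
      refine hno (u + a) (by omega) ?_
      have h1 : (T d)^[p] ((T d)^[u + a] x) = (T d)^[u + a] x := by
        rw [← Function.iterate_add_apply, add_comm p]
        exact heq
      exact ⟨⟨p, hp1, hpP, h1⟩, cycle_small hd _ p P hp1 hpP h1⟩
    have h1 : v ≤ 2 * (u + a + p) + L + 1 := by
      refine gap_td hd x hL hne fun n hn1 hn2 => ?_
      obtain ⟨i, rfl⟩ : ∃ i, n = u + i := ⟨n - u, by omega⟩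
      have h2 := hper i (by omega) hn2
      unfold parities at h2
      rwa [Nat.add_sub_cancel, Nat.add_sub_cancel] at h2
    have h2 : v ≤ 2 * u + 2 * (C * (u + s₀.length + 1)) + L + 1 := by omega
    have h3 : (v : ℝ) ≤ 2 * u + 2 * (C * (u + s₀.length + 1)) + L + 1 := by exact_mod_cast h2
    nlinarith
  have h1 := count_bound (2 * C + 2) (by positivity) (s₀.length + L : ℝ) (by positivity)
    (fun i => Predicts M (parities d x) q₀ s₀ i ∧ i < N) hgap N
  have h2 : ((Finset.range N).filter fun n =>
      ¬ (Predicts M (parities d x) q₀ s₀ n ∧ n < N)).card = errors M (parities d x) q₀ s₀ N := by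
    unfold errors
    congr 1
    ext n
    simp only [Finset.mem_filter, Finset.mem_range]
    constructor
    · rintro ⟨h3, h4⟩
      exact ⟨h3, fun h5 => h4 ⟨h5, h3⟩⟩
    · rintro ⟨h3, h4⟩
      exact ⟨h3, fun h5 => h4 h5.1⟩
  rw [h2] at h1
  linarith

/-- **Orbits with pushdown predictable parities.** Let `M` be a deterministic pushdown machine with finitely many states
and stack symbols (silent moves are allowed). (1) There are `K ≥ 1` and `P` such that for all odd `d`, all integers `x`
with `|x| + |d| ≤ 2 ^ L`, all initial states and stacks `s₀` and all `N`: if `M` makes `E` errors on the first `N` parities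
of the orbit of `x` under `T_d` and `N > K ^ (E + 1) (|s₀| + L + 1)`, then the orbit arrives, within `N` steps, at a cycle
with at most `P` elements, and at an element of absolute value at most `4 ^ P |d|` of it. (2) There are `c > 0` and `P`
such that for all odd `d` all orbits for which `M`, from some initial state and stack, makes at most `c log N` errors on
the first `N` parities for arbitrarily large `N` are eventually periodic and meet the finite set of the integers of
absolute value at most `4 ^ P |d|`. -/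
theorem result {Q Γ : Type} [Finite Q] [Finite Γ] (M : Machine Q Γ) :
    (∃ (K : ℝ) (P : ℕ), 1 ≤ K ∧ ∀ d : ℤ, d % 2 = 1 → ∀ (x : ℤ) (L : ℕ), |x| + |d| ≤ 2 ^ L →
      ∀ (q₀ : Q) (s₀ : List Γ) (N : ℕ),
      K ^ (errors M (parities d x) q₀ s₀ N + 1) * (s₀.length + L + 1) < N →
      ∃ i ≤ N, Arrives d x P i) ∧
    (∃ (c : ℝ) (P : ℕ), 0 < c ∧ ∀ d : ℤ, d % 2 = 1 → {y : ℤ | |y| ≤ 4 ^ P * |d|}.Finite ∧
      ∀ (x : ℤ) (q₀ : Q) (s₀ : List Γ),
      (∀ N₀ : ℕ, ∃ N ≥ N₀, (errors M (parities d x) q₀ s₀ N : ℝ) ≤ c * Real.log N) →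
      ∃ i, Arrives d x P i) := by
  refine ⟨general M, ?_⟩
  obtain ⟨K, P, hK1, hK⟩ := general M
  have hK2 : 1 < K + 1 := by linarith
  have hlK : 0 < Real.log (K + 1) := Real.log_pos hK2
  refine ⟨1 / (4 * Real.log (K + 1)), P, by positivity, fun d hd => ⟨?_, fun x q₀ s₀ h => ?_⟩⟩
  · refine (Set.finite_Icc (-(4 ^ P * |d|)) (4 ^ P * |d|)).subset fun y hy => ?_
    exact abs_le.1 hy
  obtain ⟨L, hL⟩ : ∃ L : ℕ, |x| + |d| ≤ 2 ^ L := by
    refine ⟨(|x| + |d|).toNat, ?_⟩
    have h1 : ((|x| + |d|).toNat : ℤ) = |x| + |d| := Int.toNat_of_nonneg (by positivity)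
    have h2 : (|x| + |d|).toNat < 2 ^ (|x| + |d|).toNat := Nat.lt_two_pow_self
    calc |x| + |d| = ((|x| + |d|).toNat : ℤ) := h1.symm
      _ ≤ ((2 ^ (|x| + |d|).toNat : ℕ) : ℤ) := by exact_mod_cast h2.le
      _ = _ := by push_cast; rfl
  obtain ⟨S, hS⟩ : ∃ S : ℝ, S = (K + 1) * (s₀.length + L + 1) := ⟨_, rfl⟩
  have hS0 : 0 < S := by rw [hS]; positivity
  obtain ⟨N, hN, hE⟩ := h (⌈S ^ 2⌉₊ + 2)
  have hN1 : S ^ 2 ≤ N := by
    have h3 : ((⌈S ^ 2⌉₊ + 2 : ℕ) : ℝ) ≤ N := by exact_mod_cast hN
    push_cast at h3
    linarith [Nat.le_ceil (S ^ 2)]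
  have hN2 : (2 : ℝ) ≤ N := by
    have : 2 ≤ N := by omega
    exact_mod_cast this
  have hN0 : (0 : ℝ) < N := by linarith
  obtain ⟨i, -, hi⟩ := hK d hd x L hL q₀ s₀ N (by
    obtain ⟨E, hE'⟩ : ∃ E : ℕ, E = errors M (parities d x) q₀ s₀ N := ⟨_, rfl⟩
    rw [← hE'] at hE ⊢
    have h4 : K ^ (E + 1) * (s₀.length + L + 1) ≤ (K + 1) ^ E * S := by
      rw [hS, ← mul_assoc, ← pow_succ]
      exact mul_le_mul_of_nonneg_right (pow_le_pow_left₀ (by linarith) (by linarith) _)
        (by positivity)
    refine lt_of_le_of_lt h4 ?_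
    rw [← Real.log_lt_log_iff (by positivity) hN0, Real.log_mul (by positivity) hS0.ne',
      Real.log_pow]
    have h6 : 2 * Real.log S ≤ Real.log N := by
      have : Real.log (S ^ 2) = 2 * Real.log S := by rw [Real.log_pow]; norm_num
      rw [← this]
      exact Real.log_le_log (by positivity) hN1
    have h7 : 0 < Real.log N := Real.log_pos (by linarith)
    have h8 : (E : ℝ) * Real.log (K + 1) ≤ Real.log N / 4 := by
      have h9 := mul_le_mul_of_nonneg_right hE hlK.le
      have h10 : 1 / (4 * Real.log (K + 1)) * Real.log N * Real.log (K + 1) = Real.log N / 4 := by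
        field_simp
      linarith
    linarith)
  exact ⟨i, hi⟩

end Pool.Agent.Results.MP_d0d59f_nt.PushdownPredictable
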