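import Mathlib
import Pool.Agent.U773.SP.DdDef
import Pool.Agent.U773.SP.TmCount

/-!
# Sparse integers under the 3x+d maps: coalescence, uniformly in d

`T_d` is the `3x+d` map, `d` odd. Let `S` be a finite set of primes and `r ≥ 0`. For `M ≥ 1` an
integer is called short if it is a sum of `r` terms `a u` with integers `|a| ≤ M` and `S`-units `u`;
for example the integers with at most `r` nonzero digits in a base composed of the primes of `S`.
All constants are independent of `d`.

(1) Coalescence. Let `x` and `y` be short and `T_d^i x = T_d^j y`. Then one of the two orbits has a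
term of absolute value at most `C |d| exp (ε (i + j + log (1 + |x|)))` before they meet, or they meet
almost simultaneously: `|i - j| ≤ C (1 + log M)` if `2` is not in `S`, and the numbers `o`, `o'` of
odd terms before the meeting satisfy `|o - o'| ≤ C (1 + log M)` if `3` is not in `S`.

(2) The dip theorem. If `S` does not contain both `2` and `3`, an orbit which goes from a short
integer `x` to a short integer `T_d^j x` with more than `C (1 + log M)` odd terms comes down to
`C |d| exp (ε (j + log (1 + |x|)))` in between.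

(3) If `S` does not contain both `2` and `3`, among `n` different successive terms of an orbit (for
example of a cycle of length `n`) at most
`C M ^ (r + 1) (1 + log |d|) ^ (r s + 1) n ^ (1 - 1 / (r s + 1))` are odd and short, `s = |S|`.

Method. `3^o x + B = 2^i z = ...`; two such relations give `3^o 2^j x + B' = 3^o' 2^i y` with small
`B'` if the orbits stay large, and in sums of `S`-units with coefficients of small height there is
no cancellation (`Pool.Agent.TH551.HA`, from the `S`-adic subspace theorem). In a second scale the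
valuations at `2` and `3` give a contradiction.
-/

set_option autoImplicit false

namespace Pool.Agent.Results.MP_d0d59f_nt.SparseCoalescence

open Finset Pool.Agent.U773.SP Pool.Agent.U773.SP.Dd

open scoped Classical

lemma hT (d : ℤ) : Tm ((3 : ℕ) : ℤ) d = T d := by
  funext x
  rfl

lemma oddc_eq (d x : ℤ) (j : ℕ) : oddc ((3 : ℕ) : ℤ) d x j = oddTerms d x j := by
  unfold oddc oddTerms
  rw [hT]

theorem result (S : Finset ℕ) (r : ℕ) :
    (∀ ε : ℝ, 0 < ε → ∃ C : ℝ, 0 < C ∧ ∀ (d x y : ℤ) (i j : ℕ) (M : ℝ), d % 2 = 1 → 1 ≤ M →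
      Short S r M x → Short S r M y → (T d)^[i] x = (T d)^[j] y →
      (∃ l < i, |(((T d)^[l] x : ℤ) : ℝ)| ≤
        C * |(d : ℝ)| * Real.exp (ε * (i + j + Real.log (1 + |(x : ℝ)|)))) ∨
      (∃ l < j, |(((T d)^[l] y : ℤ) : ℝ)| ≤
        C * |(d : ℝ)| * Real.exp (ε * (i + j + Real.log (1 + |(x : ℝ)|)))) ∨
      ((2 ∉ S → |(i : ℝ) - j| ≤ C * (1 + Real.log M)) ∧
        (3 ∉ S → |(oddTerms d x i : ℝ) - oddTerms d y j| ≤ C * (1 + Real.log M)))) ∧
    ((2 ∉ S ∨ 3 ∉ S) → ∀ ε : ℝ, 0 < ε → ∃ C : ℝ, 0 < C ∧ ∀ (d x : ℤ) (j : ℕ) (M : ℝ),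
      d % 2 = 1 → 1 ≤ M → Short S r M x → Short S r M ((T d)^[j] x) →
      C * (1 + Real.log M) < oddTerms d x j →
        ∃ i < j, |(((T d)^[i] x : ℤ) : ℝ)| ≤
          C * |(d : ℝ)| * Real.exp (ε * (j + Real.log (1 + |(x : ℝ)|)))) ∧
    ((2 ∉ S ∨ 3 ∉ S) → ∃ C : ℝ, 0 < C ∧ ∀ (d x : ℤ) (n : ℕ) (M : ℝ), d % 2 = 1 → 1 ≤ M →
      1 ≤ n → (∀ i < n, ∀ k < n, (T d)^[i] x = (T d)^[k] x → i = k) →
      (((range n).filter (fun i => (T d)^[i] x % 2 = 1 ∧ Short S r M ((T d)^[i] x))).card : ℝ) ≤
        C * M ^ (r + 1) * (1 + Real.log |(d : ℝ)|) ^ (r * S.card + 1) *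
          (n : ℝ) ^ (((r * S.card : ℕ) : ℝ) / ((r * S.card : ℕ) + 1))) := by
  refine ⟨?_, ?_, ?_⟩
  · intro ε hε
    obtain ⟨C, hC, h⟩ := coal_T S 3 (by norm_num) r ε hε
    refine ⟨C, by linarith, ?_⟩
    intro d x y i j M hd hM hx hy hxy
    have h1 := h d x y i j M hd hM hx hy (by rw [hT]; exact hxy)
    rw [hT, oddc_eq, oddc_eq] at h1
    rcases h1 with h1 | h1 | h1
    · exact Or.inl h1
    · exact Or.inr (Or.inl h1)
    · exact Or.inr (Or.inr ⟨h1.2, fun h3 => h1.1 3 Nat.prime_three (dvd_refl 3) h3⟩)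
  · intro hS ε hε
    obtain ⟨C, hC, h⟩ := dip_T S 3 (by norm_num) r ε hε
    refine ⟨C, by linarith, ?_⟩
    intro d x j M hd hM hx hy ho
    have h1 := h d x j M hd hM hx (by rw [hT]; exact hy)
    rw [hT, oddc_eq] at h1
    rcases h1 with h1 | h1
    · exact h1
    · exfalso
      have hl : (oddTerms d x j : ℝ) ≤ j := by
        rw [← oddc_eq]
        exact_mod_cast oddc_le _ _ _ _
      rcases hS with h2 | h3
      · linarith [h1.2 h2]
      · linarith [h1.1 3 Nat.prime_three (dvd_refl 3) h3]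
  · intro hS
    obtain ⟨C, hC, h⟩ := count_T S 3 (by norm_num) (by
      rcases hS with h2 | h3
      · exact ⟨2, Nat.prime_two, by norm_num, h2⟩
      · exact ⟨3, Nat.prime_three, by norm_num, h3⟩) r
    refine ⟨C, by linarith, ?_⟩
    intro d x n M hd hM hn hinj
    have h1 := h d x n M hd hM hn (by rw [hT]; exact hinj)
    rw [hT] at h1
    exact (card_inst' _ _ _ _).trans_le h1

end Pool.Agent.Results.MP_d0d59f_nt.SparseCoalescence
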